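import Mathlib

namespace Pool.Agent.Hhelper18

open Polynomial

section Abstract

variable {S : Type*} [CommRing S] {ι : Type*}

theorem eq_zero_of_theta (θ : S →+* Polynomial S) (h1 : ∀ x, (θ x).eval 1 = x) {x : S}
    (hx : θ x = 0) : x = 0 := by
  have := h1 x
  rw [hx, Polynomial.eval_zero] at this
  exact this.symm

/-- Lifting: the degree `n` component of an element of `J_A` is the degree `n` component of an
element of `L_A` of degree at most `n`. -/
theorem lift_mem (θ : S →+* Polynomial S)
    (h2 : ∀ x n, θ ((θ x).coeff n) = Polynomial.monomial n ((θ x).coeff n))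
    (f F : ι → S) (d : ι → ℕ) (A : Finset ι)
    (hf : ∀ i ∈ A, (θ (f i)).natDegree ≤ d i) (hF : ∀ i ∈ A, (θ (f i)).coeff (d i) = F i)
    (y : S) (hy : y ∈ Ideal.span (F '' (A : Set ι))) :
    ∀ n : ℕ, ∃ h ∈ Ideal.span (f '' (A : Set ι)),
      (θ h).natDegree ≤ n ∧ (θ h).coeff n = (θ y).coeff n := by
  induction hy using Submodule.span_induction with
  | mem x hx =>
    obtain ⟨i, hi, rfl⟩ := hx
    intro n
    by_cases hn : n = d i
    · subst hn
      refine ⟨f i, Ideal.subset_span ⟨i, hi, rfl⟩, hf i hi, ?_⟩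
      rw [← hF i hi, h2, Polynomial.coeff_monomial, if_pos rfl]
    · refine ⟨0, Ideal.zero_mem _, by simp, ?_⟩
      rw [← hF i hi, h2, Polynomial.coeff_monomial, if_neg (Ne.symm hn)]
      simp
  | zero =>
    intro n
    exact ⟨0, Ideal.zero_mem _, by simp, by simp⟩
  | add x y _ _ hx hy =>
    intro n
    obtain ⟨a, ha, ha1, ha2⟩ := hx n
    obtain ⟨b, hb, hb1, hb2⟩ := hy n
    refine ⟨a + b, Ideal.add_mem _ ha hb, ?_, ?_⟩
    · rw [map_add]
      exact (Polynomial.natDegree_add_le _ _).trans (max_le ha1 hb1)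
    · rw [map_add, map_add, Polynomial.coeff_add, Polynomial.coeff_add, ha2, hb2]
  | smul a x _ hx =>
    intro n
    choose h hh1 hh2 hh3 using hx
    refine ⟨∑ p ∈ Finset.HasAntidiagonal.antidiagonal n, (θ a).coeff p.1 * h p.2, ?_, ?_, ?_⟩
    · exact Ideal.sum_mem _ (fun p _ => Ideal.mul_mem_left _ _ (hh1 _))
    · rw [map_sum]
      refine Polynomial.natDegree_sum_le_of_forall_le _ _ (fun p hp => ?_)
      rw [map_mul, h2]
      refine Polynomial.natDegree_mul_le.trans ?_
      have h3 : p.1 + p.2 = n := Finset.HasAntidiagonal.mem_antidiagonal.1 hp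
      have h4 := Polynomial.natDegree_monomial_le (R := S) (m := p.1) ((θ a).coeff p.1)
      have h5 := hh2 p.2
      omega
    · rw [map_sum, Polynomial.finsetSum_coeff, smul_eq_mul, map_mul, Polynomial.coeff_mul]
      refine Finset.sum_congr rfl (fun p hp => ?_)
      have h3 : p.1 + p.2 = n := Finset.HasAntidiagonal.mem_antidiagonal.1 hp
      rw [map_mul, h2, ← h3, Polynomial.coeff_mul_add_eq_of_natDegree_le
        (Polynomial.natDegree_monomial_le _) (hh2 p.2), Polynomial.coeff_monomial, if_pos rfl,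
        hh3]

/-- Reduction modulo `L_A`. -/
theorem reduce (θ : S →+* Polynomial S) (h1 : ∀ x, (θ x).eval 1 = x)
    (h2 : ∀ x n, θ ((θ x).coeff n) = Polynomial.monomial n ((θ x).coeff n))
    (f F : ι → S) (d : ι → ℕ) (A : Finset ι)
    (hf : ∀ i ∈ A, (θ (f i)).natDegree ≤ d i) (hF : ∀ i ∈ A, (θ (f i)).coeff (d i) = F i) :
    ∀ (n : ℕ) (x : S), (θ x).natDegree ≤ n →
      ∃ x' : S, x - x' ∈ Ideal.span (f '' (A : Set ι)) ∧
        (x' = 0 ∨ (θ x').leadingCoeff ∉ Ideal.span (F '' (A : Set ι))) := by
  intro n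
  induction n with
  | zero =>
    intro x hx
    by_cases hxn : (θ x).leadingCoeff ∈ Ideal.span (F '' (A : Set ι))
    · obtain ⟨h, hh1, hh2, hh3⟩ := lift_mem θ h2 f F d A hf hF _ hxn 0
      refine ⟨0, ?_, Or.inl rfl⟩
      have hx0 : (θ x).natDegree = 0 := Nat.le_zero.1 hx
      have hlc : (θ x).leadingCoeff = (θ x).coeff 0 := by
        rw [Polynomial.leadingCoeff, hx0]
      rw [hlc, h2, Polynomial.coeff_monomial, if_pos rfl] at hh3
      have hEq : θ x = θ h := by
        rw [Polynomial.eq_C_of_natDegree_le_zero hx, Polynomial.eq_C_of_natDegree_le_zero hh2, hh3]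
      have hxh : x = h := by
        rw [← h1 x, ← h1 h, hEq]
      rw [sub_zero, hxh]
      exact hh1
    · exact ⟨x, by simp, Or.inr hxn⟩
  | succ n ih =>
    intro x hx
    rcases Nat.lt_or_ge (θ x).natDegree (n + 1) with hlt | hge
    · exact ih x (Nat.lt_succ_iff.1 hlt)
    · have hdeg : (θ x).natDegree = n + 1 := le_antisymm hx hge
      by_cases hxn : (θ x).leadingCoeff ∈ Ideal.span (F '' (A : Set ι))
      · obtain ⟨h, hh1, hh2, hh3⟩ := lift_mem θ h2 f F d A hf hF _ hxn (n + 1)
        have hlc : (θ x).leadingCoeff = (θ x).coeff (n + 1) := by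
          rw [Polynomial.leadingCoeff, hdeg]
        rw [hlc, h2, Polynomial.coeff_monomial, if_pos rfl] at hh3
        have hd : (θ (x - h)).natDegree ≤ n := by
          rw [Polynomial.natDegree_le_iff_coeff_eq_zero]
          intro N hN
          rw [map_sub, Polynomial.coeff_sub]
          rcases Nat.lt_or_ge (n + 1) N with hN' | hN'
          · rw [Polynomial.coeff_eq_zero_of_natDegree_lt (by omega),
              Polynomial.coeff_eq_zero_of_natDegree_lt (by omega), sub_zero]
          · have : N = n + 1 := by omega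
            rw [this, hh3, sub_self]
        obtain ⟨x', hx'1, hx'2⟩ := ih (x - h) hd
        refine ⟨x', ?_, hx'2⟩
        have : x - x' = (x - h - x') + h := by ring
        rw [this]
        exact Ideal.add_mem _ hx'1 hh1
      · exact ⟨x, by simp, Or.inr hxn⟩

variable [DecidableEq ι]

/-- The leading forms of elements of `L_A` lie in `J_A`. -/
theorem leading_mem (θ : S →+* Polynomial S) (h1 : ∀ x, (θ x).eval 1 = x)
    (h2 : ∀ x n, θ ((θ x).coeff n) = Polynomial.monomial n ((θ x).coeff n))
    (f F : ι → S) (d : ι → ℕ) (E : Finset ι)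
    (hf : ∀ i ∈ E, (θ (f i)).natDegree ≤ d i) (hF : ∀ i ∈ E, (θ (f i)).coeff (d i) = F i)
    (hprime : ∀ A ⊆ E, (Ideal.span (F '' (A : Set ι))).IsPrime)
    (hnot : ∀ A ⊆ E, ∀ i ∈ E, i ∉ A → F i ∉ Ideal.span (F '' (A : Set ι)))
    (A : Finset ι) (hA : A ⊆ E) :
    ∀ (n : ℕ) (x : S), x ∈ Ideal.span (f '' (A : Set ι)) → (θ x).natDegree ≤ n →
      (θ x).coeff n ∈ Ideal.span (F '' (A : Set ι)) := by
  induction A using Finset.induction_on with
  | empty =>
    intro n x hx _
    simp only [Finset.coe_empty, Set.image_empty, Ideal.span_empty, Ideal.mem_bot] at hx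
    rw [hx]
    simp
  | insert i A hiA ih =>
    have hAE : A ⊆ E := fun j hj => hA (Finset.mem_insert_of_mem hj)
    have hiE : i ∈ E := hA (Finset.mem_insert_self _ _)
    have ih := ih hAE
    have hp := hprime A hAE
    have hmono : Ideal.span (F '' (A : Set ι)) ≤ Ideal.span (F '' ((insert i A : Finset ι) : Set ι)) :=
      Ideal.span_mono (Set.image_mono (by simp))
    have hFi : F i ∈ Ideal.span (F '' ((insert i A : Finset ι) : Set ι)) :=
      Ideal.subset_span ⟨i, by simp, rfl⟩
    intro n x hx hxn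
    have hspan : Ideal.span (f '' ((insert i A : Finset ι) : Set ι))
        = Ideal.span {f i} ⊔ Ideal.span (f '' (A : Set ι)) := by
      rw [Finset.coe_insert, Set.image_insert_eq, Ideal.span_insert]
    rw [hspan, Submodule.mem_sup] at hx
    obtain ⟨b, hb, g, hg, hbg⟩ := hx
    obtain ⟨a, ha⟩ := Ideal.mem_span_singleton'.1 hb
    obtain ⟨a', ha'1, ha'2⟩ := reduce θ h1 h2 f F d A (fun i hi => hf i (hAE hi))
      (fun i hi => hF i (hAE hi)) _ a le_rfl
    -- x = g' + a' * f i
    have hg' : x - a' * f i ∈ Ideal.span (f '' (A : Set ι)) := by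
      have : x - a' * f i = g + (a - a') * f i := by
        rw [← hbg, ← ha]; ring
      rw [this]
      exact Ideal.add_mem _ hg (Ideal.mul_mem_right _ _ ha'1)
    rcases ha'2 with h0 | hlead
    · rw [h0, zero_mul, sub_zero] at hg'
      exact hmono (ih n x hg' hxn)
    · set m := (θ a').natDegree with hm
      have hprodcoeff : (θ (a' * f i)).coeff (m + d i) = (θ a').leadingCoeff * F i := by
        rw [map_mul, Polynomial.coeff_mul_add_eq_of_natDegree_le le_rfl (hf i hiE), hF i hiE]
        rfl
      have hproddeg : (θ (a' * f i)).natDegree ≤ m + d i := by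
        rw [map_mul]
        exact Polynomial.natDegree_mul_le.trans (Nat.add_le_add_left (hf i hiE) _)
      have hnotmem : (θ a').leadingCoeff * F i ∉ Ideal.span (F '' (A : Set ι)) := by
        intro hmem
        rcases hp.mem_or_mem hmem with h | h
        · exact hlead h
        · exact hnot A hAE i hiE hiA h
      have hle : m + d i ≤ n := by
        by_contra hlt
        push Not at hlt
        have hd : (θ (x - a' * f i)).natDegree ≤ m + d i := by
          rw [map_sub]
          exact (Polynomial.natDegree_sub_le _ _).trans (max_le (by omega) hproddeg)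
        have := ih (m + d i) _ hg' hd
        rw [map_sub, Polynomial.coeff_sub, Polynomial.coeff_eq_zero_of_natDegree_lt (by omega),
          zero_sub, hprodcoeff] at this
        exact hnotmem (by simpa using this)
      have hd : (θ (x - a' * f i)).natDegree ≤ n := by
        rw [map_sub]
        exact (Polynomial.natDegree_sub_le _ _).trans (max_le hxn (hproddeg.trans hle))
      have h3 := hmono (ih n _ hg' hd)
      rw [map_sub, Polynomial.coeff_sub] at h3
      have h4 : (θ (a' * f i)).coeff n ∈ Ideal.span (F '' ((insert i A : Finset ι) : Set ι)) := by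
        rcases Nat.lt_or_ge (m + d i) n with hlt | hge
        · rw [Polynomial.coeff_eq_zero_of_natDegree_lt (by omega)]
          exact Ideal.zero_mem _
        · have : n = m + d i := le_antisymm hge hle
          rw [this, hprodcoeff]
          exact Ideal.mul_mem_left _ _ hFi
      have := Ideal.add_mem _ h3 h4
      rwa [sub_add_cancel] at this

/-- If the leading forms are `strongly regular` then the ideal is prime. -/
theorem prime_of_leading (θ : S →+* Polynomial S) (h1 : ∀ x, (θ x).eval 1 = x)
    (h2 : ∀ x n, θ ((θ x).coeff n) = Polynomial.monomial n ((θ x).coeff n))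
    (f F : ι → S) (d : ι → ℕ) (E : Finset ι)
    (hf : ∀ i ∈ E, (θ (f i)).natDegree ≤ d i) (hF : ∀ i ∈ E, (θ (f i)).coeff (d i) = F i)
    (hprime : ∀ A ⊆ E, (Ideal.span (F '' (A : Set ι))).IsPrime)
    (hnot : ∀ A ⊆ E, ∀ i ∈ E, i ∉ A → F i ∉ Ideal.span (F '' (A : Set ι))) :
    (Ideal.span (f '' (E : Set ι))).IsPrime := by
  have hlead := leading_mem θ h1 h2 f F d E hf hF hprime hnot E (Finset.Subset.refl E)
  have hp := hprime E (Finset.Subset.refl E)
  constructor
  · intro htop
    have h1mem : (1 : S) ∈ Ideal.span (f '' (E : Set ι)) := by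
      rw [htop]; trivial
    have := hlead 0 1 h1mem (by simp)
    rw [map_one, Polynomial.coeff_one_zero] at this
    exact hp.ne_top ((Ideal.eq_top_iff_one _).2 this)
  · intro x y hxy
    by_contra hcon
    push Not at hcon
    obtain ⟨hx, hy⟩ := hcon
    obtain ⟨x', hx'1, hx'2⟩ := reduce θ h1 h2 f F d E hf hF _ x le_rfl
    obtain ⟨y', hy'1, hy'2⟩ := reduce θ h1 h2 f F d E hf hF _ y le_rfl
    have hx'0 : (θ x').leadingCoeff ∉ Ideal.span (F '' (E : Set ι)) := by
      rcases hx'2 with h | h
      · rw [h, sub_zero] at hx'1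
        exact absurd hx'1 hx
      · exact h
    have hy'0 : (θ y').leadingCoeff ∉ Ideal.span (F '' (E : Set ι)) := by
      rcases hy'2 with h | h
      · rw [h, sub_zero] at hy'1
        exact absurd hy'1 hy
      · exact h
    have hxy' : x' * y' ∈ Ideal.span (f '' (E : Set ι)) := by
      have : x' * y' = x * y - (x - x') * y - x' * (y - y') := by ring
      rw [this]
      exact Ideal.sub_mem _ (Ideal.sub_mem _ hxy (Ideal.mul_mem_right _ _ hx'1))
        (Ideal.mul_mem_left _ _ hy'1)
    have h3 := hlead ((θ x').natDegree + (θ y').natDegree) (x' * y') hxy' (by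
      rw [map_mul]; exact Polynomial.natDegree_mul_le)
    rw [map_mul, Polynomial.coeff_mul_add_eq_of_natDegree_le le_rfl le_rfl] at h3
    rcases hp.mem_or_mem h3 with h | h
    · exact hx'0 h
    · exact hy'0 h

end Abstract

end Pool.Agent.Hhelper18
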