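import Mathlib

namespace Pool.Agent.Hhelper18

open MvPolynomial

section PrimeExt

variable {σ k : Type*} [Field k]

/-- If `I` is generated by polynomials in the variables outside `T` then every algebra
endomorphism fixing the variables outside `T` maps `I` to `I`. -/
theorem hom_mem_of_free {T : Finset σ} {B : Type*} [CommRing B]
    (φ ψ : MvPolynomial σ k →+* B) (hC : ∀ r, φ (C r) = ψ (C r))
    (hX : ∀ s ∉ T, φ (X s) = ψ (X s)) {x : MvPolynomial σ k} (hx : x ∈ supported k ((T : Set σ)ᶜ)) :
    φ x = ψ x := by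
  refine hom_congr_vars (by ext r; exact hC r) (fun s hs _ => hX s ?_) rfl
  have := (mem_supported).1 hx
  have h2 := this hs
  simpa using h2

theorem map_mem_of_free {T : Finset σ} {G : Set (MvPolynomial σ k)}
    (hG : ∀ p ∈ G, p ∈ supported k ((T : Set σ)ᶜ))
    (φ : MvPolynomial σ k →+* MvPolynomial σ k) (hC : ∀ r, φ (C r) = C r)
    (hX : ∀ s ∉ T, φ (X s) = X s) {x : MvPolynomial σ k} (hx : x ∈ Ideal.span G) :
    φ x ∈ Ideal.span G := by
  have hle : Ideal.span G ≤ (Ideal.span G).comap φ := by
    rw [Ideal.span_le]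
    intro p hp
    have h1 : φ p = (RingHom.id _) p :=
      hom_mem_of_free φ (RingHom.id _) (by simpa using hC) (by simpa using hX) (hG p hp)
    simp only [Ideal.coe_comap, Set.mem_preimage, SetLike.mem_coe]
    rw [h1]
    exact Ideal.subset_span hp
  exact hle hx

variable [DecidableEq σ]

/-- A variable in `T` is not in a prime ideal generated by polynomials in variables outside `T`. -/
theorem X_notMem_of_free {T : Finset σ} {G : Set (MvPolynomial σ k)}
    (hG : ∀ p ∈ G, p ∈ supported k ((T : Set σ)ᶜ)) (hp : (Ideal.span G).IsPrime)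
    {u : σ} (hu : u ∈ T) : (X u : MvPolynomial σ k) ∉ Ideal.span G := by
  intro hmem
  have h := map_mem_of_free hG
    (φ := (aeval (fun s => if s = u then (1 : MvPolynomial σ k) else X s) :
      MvPolynomial σ k →ₐ[k] MvPolynomial σ k).toRingHom)
    (by intro r; simp) (by intro s hs; simp [show s ≠ u from fun h => hs (h ▸ hu)]) hmem
  have h1 : (1 : MvPolynomial σ k) ∈ Ideal.span G := by simpa using h
  exact hp.ne_top ((Ideal.eq_top_iff_one _).2 h1)

theorem sub_eval_zero_mem (u : σ) (q : MvPolynomial σ k) :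
    q - (aeval (fun s => if s = u then (0 : MvPolynomial σ k) else X s) :
      MvPolynomial σ k →ₐ[k] MvPolynomial σ k) q ∈ Ideal.span {(X u : MvPolynomial σ k)} := by
  induction q using MvPolynomial.induction_on with
  | C a => simp
  | add p q hp hq =>
    rw [map_add]
    have : p + q - ((aeval (fun s => if s = u then (0 : MvPolynomial σ k) else X s) :
      MvPolynomial σ k →ₐ[k] MvPolynomial σ k) p + (aeval (fun s => if s = u then
        (0 : MvPolynomial σ k) else X s) : MvPolynomial σ k →ₐ[k] MvPolynomial σ k) q) =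
      (p - (aeval (fun s => if s = u then (0 : MvPolynomial σ k) else X s) :
      MvPolynomial σ k →ₐ[k] MvPolynomial σ k) p) + (q - (aeval (fun s => if s = u then
        (0 : MvPolynomial σ k) else X s) : MvPolynomial σ k →ₐ[k] MvPolynomial σ k) q) := by ring
    rw [this]
    exact Ideal.add_mem _ hp hq
  | mul_X p s hp =>
    rw [map_mul, aeval_X]
    by_cases hs : s = u
    · subst hs
      simp only [if_pos, mul_zero, sub_zero]
      exact Ideal.mul_mem_left _ _ (Ideal.subset_span rfl)
    · rw [if_neg hs, ← sub_mul]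
      exact Ideal.mul_mem_right _ _ hp

/-- `g` is a nonzerodivisor modulo `I + (∏_{t ∈ T'} X t)`. -/
theorem nzd_of_free {T : Finset σ} {G : Set (MvPolynomial σ k)}
    (hG : ∀ p ∈ G, p ∈ supported k ((T : Set σ)ᶜ)) (hp : (Ideal.span G).IsPrime)
    {g : MvPolynomial σ k} (hg : g ∈ supported k ((T : Set σ)ᶜ)) (hgI : g ∉ Ideal.span G)
    (T' : Finset σ) (hT' : T' ⊆ T) :
    ∀ q h r : MvPolynomial σ k, h ∈ Ideal.span G → q * g = h + r * ∏ t ∈ T', X t →
      ∃ h' ∈ Ideal.span G, ∃ q', q = h' + q' * ∏ t ∈ T', X t := by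
  induction T' using Finset.induction_on with
  | empty =>
    intro q h r _ _
    exact ⟨0, Ideal.zero_mem _, q, by simp⟩
  | insert u T'' huT'' ih =>
    intro q h r hh hqg
    have huT : u ∈ T := hT' (Finset.mem_insert_self _ _)
    have ih := ih (fun s hs => hT' (Finset.mem_insert_of_mem hs))
    rw [Finset.prod_insert huT''] at hqg ⊢
    set ε : MvPolynomial σ k →ₐ[k] MvPolynomial σ k :=
      aeval (fun s => if s = u then (0 : MvPolynomial σ k) else X s) with hε
    have hεu : ε (X u) = 0 := by simp [hε]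
    have hεX : ∀ s ∉ T, ε (X s) = X s := by
      intro s hs
      simp [hε, show s ≠ u from fun h => hs (h ▸ huT)]
    have hεg : ε g = g := by
      have := hom_mem_of_free ε.toRingHom (RingHom.id _) (by intro r; simp)
        (by intro s hs; simpa using hεX s hs) hg
      simpa using this
    have hεI : ∀ x ∈ Ideal.span G, ε x ∈ Ideal.span G := by
      intro x hx
      exact map_mem_of_free hG ε.toRingHom (by intro r; simp) (by intro s hs; simpa using hεX s hs) hx
    have h1 : ε q * g ∈ Ideal.span G := by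
      have h2 := congrArg ε hqg
      rw [map_mul, map_add, map_mul, map_mul, hεu, zero_mul, mul_zero, add_zero, hεg] at h2
      rw [h2]
      exact hεI h hh
    have h2 : ε q ∈ Ideal.span G := by
      rcases hp.mem_or_mem h1 with h | h
      · exact h
      · exact absurd h hgI
    obtain ⟨q', hq'⟩ := Ideal.mem_span_singleton'.1 (sub_eval_zero_mem u q)
    have hq : q = ε q + q' * X u := by
      rw [hq']; ring
    have h3 : X u * (q' * g - r * ∏ t ∈ T'', X t) ∈ Ideal.span G := by
      have : X u * (q' * g - r * ∏ t ∈ T'', X t) = h - ε q * g := by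
        have h4 : q * g = (ε q + q' * X u) * g := by rw [← hq]
        rw [hqg] at h4
        linear_combination -h4
      rw [this]
      exact Ideal.sub_mem _ hh h1
    have h4 : q' * g - r * ∏ t ∈ T'', X t ∈ Ideal.span G := by
      rcases hp.mem_or_mem h3 with h | h
      · exact absurd h (X_notMem_of_free hG hp huT)
      · exact h
    obtain ⟨h', hh', q'', hq''⟩ := ih q' _ r h4 (by ring)
    refine ⟨ε q + h' * X u, Ideal.add_mem _ h2 (Ideal.mul_mem_right _ _ hh'), q'', ?_⟩
    rw [hq]
    conv_lhs => rw [hq'']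
    have : ε (ε q + q' * X u) = ε q := by rw [← hq]
    rw [this]
    ring

/-- The main extension lemma. -/
theorem prime_ext {T : Finset σ} (hT : T.Nonempty) {G : Set (MvPolynomial σ k)}
    (hG : ∀ p ∈ G, p ∈ supported k ((T : Set σ)ᶜ)) (hp : (Ideal.span G).IsPrime)
    {g : MvPolynomial σ k} (hg : g ∈ supported k ((T : Set σ)ᶜ)) (hgI : g ∉ Ideal.span G) :
    (Ideal.span (insert ((∏ t ∈ T, X t) + g) G)).IsPrime := by
  obtain ⟨v, hv⟩ := hT
  set I := Ideal.span G with hI
  set a : MvPolynomial σ k := ∏ t ∈ T.erase v, X t with ha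
  have hprod : (∏ t ∈ T, X t : MvPolynomial σ k) = X v * a := (Finset.mul_prod_erase T _ hv).symm
  have haI : a ∉ I := by
    intro hmem
    rw [ha, hp.prod_mem_iff] at hmem
    obtain ⟨t, ht, htI⟩ := hmem
    exact X_notMem_of_free hG hp (Finset.mem_of_mem_erase ht) htI
  have hasupp : a ∈ supported k ({v}ᶜ : Set σ) := by
    rw [ha]
    refine Subalgebra.prod_mem _ (fun t ht => ?_)
    rw [X_mem_supported]
    simpa using Finset.ne_of_mem_erase ht
  have hsub : ((T : Set σ)ᶜ) ⊆ ({v}ᶜ : Set σ) := by
    intro s hs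
    simp only [Set.mem_compl_iff, Set.mem_singleton_iff]
    rintro rfl
    exact hs hv
  have hgsupp : g ∈ supported k ({v}ᶜ : Set σ) := supported_mono hsub hg
  have hGsupp : ∀ p ∈ G, p ∈ supported k ({v}ᶜ : Set σ) := fun p hpG => supported_mono hsub (hG p hpG)
  set f : MvPolynomial σ k := X v * a + g with hf
  rw [hprod, Ideal.span_insert]
  -- the field
  let D := MvPolynomial σ k ⧸ I
  have : I.IsPrime := hp
  let K := FractionRing D
  let π : MvPolynomial σ k →+* K := (algebraMap D K).comp (Ideal.Quotient.mk I)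
  have hπ : ∀ x, π x = 0 ↔ x ∈ I := by
    intro x
    simp only [π, RingHom.comp_apply]
    rw [map_eq_zero_iff _ (IsFractionRing.injective D K), Ideal.Quotient.eq_zero_iff_mem]
  let ψ : MvPolynomial σ k →+* K :=
    eval₂Hom (π.comp C) (fun s => if s = v then -(π g) / π a else π (X s))
  have hψsupp : ∀ x ∈ supported k ({v}ᶜ : Set σ), ψ x = π x := by
    intro x hx
    refine hom_congr_vars (by ext r; simp [ψ]) (fun s hs _ => ?_) rfl
    have h1 := (mem_supported).1 hx hs
    have h2 : s ≠ v := by simpa using h1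
    simp [ψ, h2]
  have hπa : π a ≠ 0 := fun h => haI ((hπ a).1 h)
  have hψf : ψ f = 0 := by
    have h1 : ψ (X v) = -(π g) / π a := by simp [ψ]
    rw [hf, map_add, map_mul, h1, hψsupp a hasupp, hψsupp g hgsupp, div_mul_cancel₀ _ hπa,
      neg_add_cancel]
  have hIker : I ≤ RingHom.ker ψ := by
    refine Ideal.span_le.2 ?_
    intro p hpG
    simp only [SetLike.mem_coe, RingHom.mem_ker]
    rw [hψsupp p (hGsupp p hpG), hπ]
    exact Ideal.subset_span hpG
  -- cancellation
  have hcancel : ∀ z, a * z ∈ Ideal.span {f} ⊔ I → z ∈ Ideal.span {f} ⊔ I := by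
    intro z hz
    rw [Submodule.mem_sup] at hz
    obtain ⟨b, hb, h, hh, hbh⟩ := hz
    obtain ⟨q, hq⟩ := Ideal.mem_span_singleton'.1 hb
    -- a * z = h + q * f
    have h1 : q * g = -h + (z - q * X v) * ∏ t ∈ T.erase v, X t := by
      rw [← ha]
      rw [← hq, hf] at hbh
      linear_combination hbh
    obtain ⟨h', hh', q', hq'⟩ := nzd_of_free hG hp hg hgI (T.erase v) (Finset.erase_subset _ _) q (-h)
      (z - q * X v) (by rw [← hI]; exact neg_mem hh) h1
    rw [← ha] at hq'
    have h2 : a * (z - q' * f) ∈ I := by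
      have : a * (z - q' * f) = h + h' * f := by
        rw [← hq, hq'] at hbh
        linear_combination -hbh
      rw [this]
      exact Ideal.add_mem _ hh (Ideal.mul_mem_right _ _ hh')
    have h3 : z - q' * f ∈ I := by
      rcases hp.mem_or_mem h2 with h | h
      · exact absurd h haI
      · exact h
    rw [Submodule.mem_sup]
    exact ⟨q' * f, Ideal.mul_mem_left _ _ (Ideal.subset_span rfl), z - q' * f, h3, by ring⟩
  have hcancel' : ∀ (m : ℕ) z, a ^ m * z ∈ Ideal.span {f} ⊔ I → z ∈ Ideal.span {f} ⊔ I := by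
    intro m
    induction m with
    | zero => intro z hz; simpa using hz
    | succ m ih =>
      intro z hz
      refine ih z (hcancel _ ?_)
      rw [pow_succ'] at hz
      rwa [← mul_assoc]
  -- pseudo-division
  have hdiv : ∀ x : MvPolynomial σ k, ∃ (m : ℕ) (x₀ : MvPolynomial σ k),
      x₀ ∈ supported k ({v}ᶜ : Set σ) ∧ a ^ m * x - x₀ ∈ Ideal.span {f} := by
    intro x
    induction x using MvPolynomial.induction_on with
    | C r =>
      refine ⟨0, C r, ?_, by simp⟩
      exact Subalgebra.algebraMap_mem _ r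
    | add p q hp' hq' =>
      obtain ⟨m, p₀, hp1, hp2⟩ := hp'
      obtain ⟨l, q₀, hq1, hq2⟩ := hq'
      refine ⟨m + l, a ^ l * p₀ + a ^ m * q₀, ?_, ?_⟩
      · exact Subalgebra.add_mem _ (Subalgebra.mul_mem _ (Subalgebra.pow_mem _ hasupp _) hp1)
          (Subalgebra.mul_mem _ (Subalgebra.pow_mem _ hasupp _) hq1)
      · have : a ^ (m + l) * (p + q) - (a ^ l * p₀ + a ^ m * q₀) =
          a ^ l * (a ^ m * p - p₀) + a ^ m * (a ^ l * q - q₀) := by ring
        rw [this]
        exact Ideal.add_mem _ (Ideal.mul_mem_left _ _ hp2) (Ideal.mul_mem_left _ _ hq2)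
    | mul_X p s hp' =>
      obtain ⟨m, p₀, hp1, hp2⟩ := hp'
      by_cases hs : s = v
      · subst hs
        refine ⟨m + 1, -(p₀ * g), ?_, ?_⟩
        · exact Subalgebra.neg_mem _ (Subalgebra.mul_mem _ hp1 hgsupp)
        · have : a ^ (m + 1) * (p * X s) - -(p₀ * g) =
            (X s * a) * (a ^ m * p - p₀) + p₀ * f := by
            rw [hf]; ring
          rw [this]
          exact Ideal.add_mem _ (Ideal.mul_mem_left _ _ hp2)
            (Ideal.mul_mem_left _ _ (Ideal.subset_span rfl))
      · refine ⟨m, p₀ * X s, ?_, ?_⟩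
        · refine Subalgebra.mul_mem _ hp1 ?_
          rw [X_mem_supported]
          simpa using hs
        · have : a ^ m * (p * X s) - p₀ * X s = X s * (a ^ m * p - p₀) := by ring
          rw [this]
          exact Ideal.mul_mem_left _ _ hp2
  have hker : RingHom.ker ψ = Ideal.span {f} ⊔ I := by
    apply le_antisymm
    · intro x hx
      rw [RingHom.mem_ker] at hx
      obtain ⟨m, x₀, hx1, hx2⟩ := hdiv x
      have hfker : Ideal.span {f} ≤ RingHom.ker ψ := by
        rw [Ideal.span_le]
        intro y hy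
        rw [Set.mem_singleton_iff] at hy
        rw [hy]
        exact hψf
      have h3 := hfker hx2
      rw [RingHom.mem_ker, map_sub, map_mul, hx, mul_zero, zero_sub, neg_eq_zero,
        hψsupp x₀ hx1, hπ] at h3
      refine hcancel' m x ?_
      have : a ^ m * x = (a ^ m * x - x₀) + x₀ := by ring
      rw [this]
      exact Ideal.add_mem _ (Ideal.mem_sup_left hx2) (Ideal.mem_sup_right h3)
    · refine sup_le ?_ hIker
      rw [Ideal.span_le]
      intro y hy
      rw [Set.mem_singleton_iff] at hy
      rw [hy]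
      exact hψf
  rw [← hker]
  exact RingHom.ker_isPrime ψ

end PrimeExt

end Pool.Agent.Hhelper18
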